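import Pool.Agent.K1H36.Perm.Poly

/-!
# Probabilities of vanishing of products of random linear forms
-/

namespace Pool.Agent.K1H36.Perm

open MvPolynomial Finset
open scoped BigOperators

attribute [local instance] Classical.propDecidable

set_option linter.unusedSectionVars false

variable {F : Type*} [Field F] [Fintype F] {m : ℕ}

/-! ### Resampling -/

theorem resample {α V K : Type*} [Fintype α] [DecidableEq α] [Fintype V] [Nonempty V]
    [AddCommMonoid K] [Module ℚ≥0 K] (a : α) (f : (α → V) → K) :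
    𝔼 R, f R = 𝔼 R, 𝔼 c, f (Function.update R a c) := by
  let e : (α → V) × V ≃ (α → V) × V :=
    ⟨fun z => (Function.update z.1 a z.2, z.1 a), fun z => (Function.update z.1 a z.2, z.1 a),
      fun z => by simp, fun z => by simp⟩
  have h1 : 𝔼 z : (α → V) × V, f z.1 = 𝔼 R, f R := by
    rw [← Finset.univ_product_univ, Finset.expect_product]
    exact Finset.expect_congr rfl fun R _ => by simp
  have h2 : 𝔼 z : (α → V) × V, f (Function.update z.1 a z.2) =
      𝔼 R, 𝔼 c, f (Function.update R a c) := by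
    rw [← Finset.univ_product_univ, Finset.expect_product]
  rw [← h1, ← h2]
  exact (Fintype.expect_equiv e _ _ fun z => rfl).symm

/-- `Φ k P` is the probability that all squarefree coefficients of the product of `P` and `k`
uniform random linear forms vanish. -/
noncomputable def Φ : ℕ → MvPolynomial (Fin m) F → ℝ
  | 0, P => if Z P then 1 else 0
  | k + 1, P => 𝔼 c : Fin m → F, Φ k (lin c * P)

theorem Φ_zero (P : MvPolynomial (Fin m) F) : Φ 0 P = if Z P then 1 else 0 := rfl

theorem Φ_succ (k : ℕ) (P : MvPolynomial (Fin m) F) : Φ (k + 1) P = 𝔼 c, Φ k (lin c * P) := rfl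

theorem Φ_nonneg : ∀ (k : ℕ) (P : MvPolynomial (Fin m) F), 0 ≤ Φ k P
  | 0, P => by rw [Φ_zero]; split_ifs <;> norm_num
  | k + 1, P => Finset.expect_nonneg fun c _ => Φ_nonneg k _

theorem Φ_le_one : ∀ (k : ℕ) (P : MvPolynomial (Fin m) F), Φ k P ≤ 1
  | 0, P => by rw [Φ_zero]; split_ifs <;> norm_num
  | k + 1, P => by
    have : Φ (k + 1) P ≤ 𝔼 _c : Fin m → F, (1 : ℝ) := by
      rw [Φ_succ]; exact Finset.expect_le_expect fun c _ => Φ_le_one k _
    simpa using this

theorem Φ_of_Z : ∀ (k : ℕ) {P : MvPolynomial (Fin m) F}, Z P → Φ k P = 1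
  | 0, P, h => by rw [Φ_zero, if_pos h]
  | k + 1, P, h => by
    rw [Φ_succ, Finset.expect_congr rfl (fun c _ => Φ_of_Z k (h.lin_mul c))]
    simp

theorem Φ_mono (k : ℕ) : ∀ (P : MvPolynomial (Fin m) F), Φ k P ≤ Φ (k + 1) P := by
  induction k with
  | zero =>
    intro P
    by_cases h : Z P
    · rw [Φ_of_Z 0 h, Φ_of_Z _ h]
    · rw [Φ_zero, if_neg h]; exact Φ_nonneg _ _
  | succ k ih =>
    intro P
    rw [Φ_succ k, Φ_succ (k + 1)]
    exact Finset.expect_le_expect fun c _ => ih _

/-- Marginals. -/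
theorem marg {α : Type*} [Fintype α] [DecidableEq α] (S : Finset α) :
    ∀ (k : ℕ) (P : MvPolynomial (Fin m) F),
      𝔼 R : α → Fin m → F, Φ k ((∏ x ∈ S, lin (R x)) * P) = Φ (k + S.card) P := by
  induction S using Finset.induction_on with
  | empty => intro k P; simp
  | insert a S ha ih =>
    intro k P
    rw [resample a]
    have h1 : ∀ (R : α → Fin m → F) (c : Fin m → F),
        (∏ x ∈ insert a S, lin (Function.update R a c x)) * P =
          lin c * ((∏ x ∈ S, lin (R x)) * P) := by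
      intro R c
      rw [Finset.prod_insert ha, Function.update_self, mul_assoc]
      congr 2
      refine Finset.prod_congr rfl fun x hx => ?_
      rw [Function.update_of_ne (fun h : x = a => ha (h ▸ hx))]
    simp only [h1]
    have h2 := ih (k + 1) P
    simp only [Φ_succ] at h2
    rw [h2, Finset.card_insert_of_notMem ha]
    congr 1
    omega

/-- `W m k` is the probability that all maximal permanental minors of a uniform random `k × m`
matrix vanish. -/
noncomputable def W (F : Type*) [Field F] [Fintype F] (m k : ℕ) : ℝ :=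
  Φ k (1 : MvPolynomial (Fin m) F)

theorem marg' {α : Type*} [Fintype α] [DecidableEq α] (S : Finset α) (k : ℕ) :
    𝔼 R : α → Fin m → F, Φ k (∏ x ∈ S, lin (R x)) = W F m (k + S.card) := by
  have := marg (m := m) (F := F) S k 1
  simpa [W] using this

/-! ### The kernel bound -/

theorem card_kernel_le {P : MvPolynomial (Fin m) F} {k : ℕ} (hP : P.IsHomogeneous k) (h : ¬ Z P) :
    Φ 1 P ≤ (Fintype.card F : ℝ) ^ k / (Fintype.card F : ℝ) ^ m := by
  rw [Z] at h
  push Not at h
  obtain ⟨S, hS⟩ := h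
  have hk : S.card = k := by
    by_contra hc
    exact hS (sq_eq_zero hP hc)
  have key : ∀ d : Fin m → F, Z (lin d * P) → (∀ j ∈ S, d j = 0) → d = 0 := by
    intro d hd h0
    ext i
    by_cases hi : i ∈ S
    · exact h0 i hi
    · have h1 := hd (insert i S)
      rw [sq_lin_mul, Finset.sum_insert hi, Finset.erase_insert hi,
        Finset.sum_eq_zero (fun j hj => by rw [h0 j hj, zero_mul]), add_zero] at h1
      exact (mul_eq_zero.1 h1).resolve_right hS
  have hcard : Fintype.card {c : Fin m → F // Z (lin c * P)} ≤ Fintype.card F ^ k := by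
    have : Fintype.card (S → F) = Fintype.card F ^ k := by
      rw [Fintype.card_fun, Fintype.card_coe, hk]
    rw [← this]
    apply Fintype.card_le_of_injective
      (fun (c : {c : Fin m → F // Z (lin c * P)}) (j : S) => c.1 j.1)
    rintro ⟨c, hc⟩ ⟨c', hc'⟩ e
    have h1 : c - c' = 0 := by
      apply key
      · intro T
        rw [lin_sub, sub_mul, sq_sub, hc, hc', sub_zero]
      · intro j hj
        rw [Pi.sub_apply, sub_eq_zero]
        exact congrFun e ⟨j, hj⟩
    exact Subtype.ext (sub_eq_zero.1 h1)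
  have e1 : Φ 1 P = (Fintype.card {c : Fin m → F // Z (lin c * P)} : ℝ) /
      (Fintype.card F : ℝ) ^ m := by
    rw [Φ_succ, Fintype.expect_eq_sum_div_card, Fintype.card_fun, Fintype.card_fin]
    simp only [Φ_zero]
    rw [Finset.sum_boole, ← Fintype.card_subtype]
    push_cast
    rfl
  rw [e1]
  have hF : (0 : ℝ) < Fintype.card F := by exact_mod_cast Fintype.card_pos
  gcongr
  exact_mod_cast hcard

/-! ### The chain of inequalities -/

theorem W_eq (k j : ℕ) : W F m (j + k) =
    𝔼 v : Fin k → Fin m → F, Φ j (∏ x, lin (v x)) := by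
  rw [marg', Finset.card_univ, Fintype.card_fin]

theorem W_mono (k : ℕ) : W F m k ≤ W F m (k + 1) := Φ_mono k 1

theorem W_mono' {k l : ℕ} (h : k ≤ l) : W F m k ≤ W F m l :=
  monotone_nat_of_le_succ (W_mono (F := F) (m := m)) h

theorem W_nonneg (k : ℕ) : 0 ≤ W F m k := Φ_nonneg _ _

theorem W_le_one (k : ℕ) : W F m k ≤ 1 := Φ_le_one _ _

theorem W_step (k : ℕ) : W F m (k + 1) ≤ W F m k +
    (Fintype.card F : ℝ) ^ k / (Fintype.card F : ℝ) ^ m := by
  have h1 := W_eq (F := F) (m := m) k 1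
  have h0 := W_eq (F := F) (m := m) k 0
  rw [zero_add] at h0
  rw [add_comm k 1, h1, h0]
  have h2 : (𝔼 v : Fin k → Fin m → F, Φ 0 (∏ x, lin (v x))) +
      (Fintype.card F : ℝ) ^ k / (Fintype.card F : ℝ) ^ m =
      𝔼 v : Fin k → Fin m → F, (Φ 0 (∏ x, lin (v x)) +
        (Fintype.card F : ℝ) ^ k / (Fintype.card F : ℝ) ^ m) := by
    rw [Finset.expect_add_distrib, Finset.expect_const univ_nonempty]
  rw [h2]
  refine Finset.expect_le_expect fun v _ => ?_
  by_cases hZ : Z (∏ x, lin (v x))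
  · rw [Φ_of_Z 1 hZ, Φ_of_Z 0 hZ]
    have : (0 : ℝ) ≤ (Fintype.card F : ℝ) ^ k / (Fintype.card F : ℝ) ^ m := by positivity
    linarith
  · rw [Φ_zero, if_neg hZ, zero_add]
    have := prod_hom (univ : Finset (Fin k)) v
    rw [Finset.card_univ, Fintype.card_fin] at this
    exact card_kernel_le this hZ

/-- Two more random forms. -/
theorem Φ_two (P : MvPolynomial (Fin m) F) : 2 * Φ 1 P - Φ 1 P ^ 2 ≤ Φ 2 P := by
  have h1 : Φ 2 P = 𝔼 c : Fin m → F, 𝔼 d : Fin m → F, Φ 0 (lin d * (lin c * P)) := by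
    rw [Φ_succ]; rfl
  have h2 : 2 * Φ 1 P - Φ 1 P ^ 2 = 𝔼 c : Fin m → F, 𝔼 d : Fin m → F,
      (Φ 0 (lin c * P) + Φ 0 (lin d * P) - Φ 0 (lin c * P) * Φ 0 (lin d * P)) := by
    have e1 : ∀ c : Fin m → F, 𝔼 d : Fin m → F,
      (Φ 0 (lin c * P) + Φ 0 (lin d * P) - Φ 0 (lin c * P) * Φ 0 (lin d * P)) =
        Φ 0 (lin c * P) + Φ 1 P - Φ 0 (lin c * P) * Φ 1 P := by
      intro c
      rw [Finset.expect_sub_distrib, Finset.expect_add_distrib, Finset.expect_const univ_nonempty,
        ← Finset.mul_expect]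
      rfl
    simp only [e1]
    rw [Finset.expect_sub_distrib, Finset.expect_add_distrib, Finset.expect_const univ_nonempty,
      ← Finset.expect_mul]
    have : 𝔼 c : Fin m → F, Φ 0 (lin c * P) = Φ 1 P := rfl
    rw [this]; ring
  rw [h1, h2]
  refine Finset.expect_le_expect fun c _ => Finset.expect_le_expect fun d _ => ?_
  by_cases hc : Z (lin c * P)
  · rw [Φ_of_Z 0 hc, Φ_of_Z 0 (hc.lin_mul d)]; ring_nf; exact le_refl _
  · by_cases hd : Z (lin d * P)
    · have h3 : Z (lin d * (lin c * P)) := by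
        rw [← mul_assoc, mul_comm (lin d), mul_assoc]; exact hd.lin_mul c
      rw [Φ_of_Z 0 hd, Φ_of_Z 0 h3]; ring_nf; exact le_refl _
    · rw [Φ_zero, Φ_zero (lin d * P), if_neg hc, if_neg hd]
      simpa using Φ_nonneg 0 _

theorem W_chain (k : ℕ) (hk : k + 3 ≤ m) (hq : 3 ≤ Fintype.card F) :
    W F m (m - 1) - W F m k ≤ 3 * (W F m (m - 1) - W F m (k + 1)) := by
  set q : ℝ := (Fintype.card F : ℝ) with hqdef
  have hq3 : (3 : ℝ) ≤ q := by rw [hqdef]; exact_mod_cast hq
  have heps : q ^ k / q ^ m ≤ 1 / 27 := by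
    obtain ⟨d, rfl⟩ : ∃ d, m = k + 3 + d := ⟨m - (k + 3), by omega⟩
    rw [div_le_div_iff₀ (by positivity) (by norm_num), one_mul, pow_add, pow_add, mul_assoc]
    have h1 : (27 : ℝ) ≤ q ^ 3 := by
      have := pow_le_pow_left₀ (by norm_num) hq3 3
      norm_num at this ⊢; exact this
    have h2 : (1 : ℝ) ≤ q ^ d := one_le_pow₀ (by linarith)
    have h3 : (27 : ℝ) ≤ q ^ 3 * q ^ d := by nlinarith
    exact mul_le_mul_of_nonneg_left h3 (by positivity)
  have h0 := W_eq (F := F) (m := m) k 0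
  have h1 := W_eq (F := F) (m := m) k 1
  have h2 := W_eq (F := F) (m := m) k 2
  rw [zero_add] at h0
  have h3 : (2 - 1 / 27) * (W F m (1 + k) - W F m k) ≤ W F m (2 + k) - W F m k := by
    rw [h0, h1, h2, ← Finset.expect_sub_distrib, ← Finset.expect_sub_distrib, Finset.mul_expect]
    refine Finset.expect_le_expect fun v _ => ?_
    by_cases hZ : Z (∏ x, lin (v x))
    · rw [Φ_of_Z 1 hZ, Φ_of_Z 0 hZ, Φ_of_Z 2 hZ]; norm_num
    · have hh := prod_hom (univ : Finset (Fin k)) v
      rw [Finset.card_univ, Fintype.card_fin] at hh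
      have h4 := card_kernel_le hh hZ
      have h5 := Φ_two (∏ x, lin (v x))
      have h6 := Φ_nonneg 1 (∏ x, lin (v x))
      rw [Φ_zero, if_neg hZ, sub_zero, sub_zero]
      have h7 : Φ 1 (∏ x, lin (v x)) ≤ 1 / 27 := h4.trans heps
      nlinarith
  have h4 : W F m (2 + k) ≤ W F m (m - 1) := W_mono' (by omega)
  rw [add_comm 1 k] at h3
  have h5 := W_mono (F := F) (m := m) k
  have h6 : W F m (k + 1) ≤ W F m (2 + k) := W_mono' (by omega)
  nlinarith

end Pool.Agent.K1H36.Perm
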