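import Mathlib

/-!
# Character sums of symmetric bilinear forms over a finite field of odd characteristic
-/

namespace Pool.Agent.K1H36.Perm

open Finset
open scoped BigOperators

attribute [local instance] Classical.propDecidable

set_option linter.unusedSectionVars false

variable {F : Type*} [Field F] [Fintype F]
variable {V : Type*} [AddCommGroup V] [Module F V] [Fintype V]

theorem exists_char (F : Type*) [Field F] [Fintype F] : ∃ χ : AddChar F ℂ, ∃ x, χ x ≠ 1 := by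
  obtain ⟨ψ, hψ⟩ := (AddChar.exists_apply_ne_zero (α := F) (a := 1)).2 one_ne_zero
  exact ⟨ψ, 1, hψ⟩

/-- Orthogonality. -/
theorem orth {χ : AddChar F ℂ} (hχ : ∃ x, χ x ≠ 1) (l : V →ₗ[F] F) :
    𝔼 v, χ (l v) = if ∀ v, l v = 0 then 1 else 0 := by
  have h := AddChar.expect_eq_ite (χ.compAddMonoidHom l.toAddMonoidHom)
  have h1 : (∀ v, (χ.compAddMonoidHom l.toAddMonoidHom) v = χ (l v)) := fun v => rfl
  simp only [h1] at h
  rw [h]
  congr 1
  rw [eq_iff_iff, AddChar.eq_zero_iff]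
  constructor
  · intro h2 v
    by_contra hv
    obtain ⟨x, hx⟩ := hχ
    apply hx
    have := h2 ((x / l v) • v)
    rw [h1, map_smul, smul_eq_mul, div_mul_cancel₀ _ hv] at this
    exact this
  · intro h2 v
    rw [h1, h2, AddChar.map_zero_eq_one]

/-- The proportion of radical vectors. -/
noncomputable def rr (Ψ : V →ₗ[F] V →ₗ[F] F) : ℝ := 𝔼 x, if ∀ y, Ψ x y = 0 then (1 : ℝ) else 0

theorem rr_nonneg (Ψ : V →ₗ[F] V →ₗ[F] F) : 0 ≤ rr Ψ :=
  Finset.expect_nonneg fun x _ => by split_ifs <;> norm_num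

theorem two_sum {χ : AddChar F ℂ} (hχ : ∃ x, χ x ≠ 1) (Ψ : V →ₗ[F] V →ₗ[F] F) :
    𝔼 x, 𝔼 y, χ (Ψ x y) = (rr Ψ : ℂ) := by
  rw [rr]
  push_cast
  refine Finset.expect_congr rfl fun x _ => ?_
  rw [orth hχ (Ψ x)]
  split_ifs <;> simp

theorem gauss {χ : AddChar F ℂ} (hχ : ∃ x, χ x ≠ 1) (h2 : (2 : F) ≠ 0)
    (Ψ : V →ₗ[F] V →ₗ[F] F) (hs : ∀ x y, Ψ x y = Ψ y x) (a : F) (ha : a ≠ 0) :
    ‖𝔼 x, χ (a * Ψ x x)‖ ^ 2 = rr Ψ := by
  have h1 : ((‖𝔼 x, χ (a * Ψ x x)‖ ^ 2 : ℝ) : ℂ) =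
      (𝔼 x, χ (a * Ψ x x)) * (starRingEnd ℂ) (𝔼 x, χ (a * Ψ x x)) := by
    rw [Complex.mul_conj, Complex.normSq_eq_norm_sq]
  have h3 : (starRingEnd ℂ) (𝔼 x, χ (a * Ψ x x)) = 𝔼 y, χ (-(a * Ψ y y)) := by
    rw [Fintype.expect_eq_sum_div_card, Fintype.expect_eq_sum_div_card, map_div₀, map_sum]
    simp only [AddChar.map_neg_eq_conj, Complex.conj_natCast]
  have h4 : (𝔼 x, χ (a * Ψ x x)) * 𝔼 y, χ (-(a * Ψ y y)) = (rr Ψ : ℂ) := by
    rw [Finset.mul_expect]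
    have e1 : ∀ y, (𝔼 x, χ (a * Ψ x x)) * χ (-(a * Ψ y y)) =
        𝔼 u, χ (a * Ψ u u) * χ (Ψ ((2 * a) • u) y) := by
      intro y
      rw [Finset.expect_mul]
      refine (Fintype.expect_equiv (Equiv.addRight y) _ _ fun u => ?_).symm
      rw [← AddChar.map_add_eq_mul, ← AddChar.map_add_eq_mul]
      congr 1
      rw [Equiv.coe_addRight, map_add, map_smul]
      simp only [map_add, LinearMap.add_apply, LinearMap.smul_apply, smul_eq_mul]
      rw [hs y u]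
      ring
    simp only [e1]
    rw [Finset.expect_comm, rr]
    push_cast
    refine Finset.expect_congr rfl fun u _ => ?_
    rw [← Finset.mul_expect, orth hχ (Ψ ((2 * a) • u))]
    by_cases hu : ∀ y, Ψ u y = 0
    · rw [if_pos hu, if_pos, hu u, mul_zero, AddChar.map_zero_eq_one, mul_one]
      · simp
      · intro y
        rw [map_smul, LinearMap.smul_apply, hu y, smul_zero]
    · rw [if_neg hu, if_neg]
      · simp
      · intro h
        apply hu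
        intro y
        have := h y
        rw [map_smul, LinearMap.smul_apply, smul_eq_mul] at this
        exact (mul_eq_zero.1 this).resolve_left (mul_ne_zero h2 ha)
  have h5 : ((‖𝔼 x, χ (a * Ψ x x)‖ ^ 2 : ℝ) : ℂ) = (rr Ψ : ℂ) := by rw [h1, h3, h4]
  exact_mod_cast h5

theorem three_sum {χ : AddChar F ℂ} (hχ : ∃ x, χ x ≠ 1) (h2 : (2 : F) ≠ 0)
    (Ψ : V →ₗ[F] V →ₗ[F] F) (hs : ∀ x y, Ψ x y = Ψ y x) (a b c : F) (ha : a ≠ 0) (hb : b ≠ 0)
    (hc : c ≠ 0) :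
    ‖𝔼 x, 𝔼 y, 𝔼 z, χ (a * Ψ y z + b * Ψ x z + c * Ψ x y)‖ = rr Ψ * Real.sqrt (rr Ψ) := by
  have e1 : ∀ x y, 𝔼 z, χ (a * Ψ y z + b * Ψ x z + c * Ψ x y) =
      χ (c * Ψ x y) * if ∀ z, Ψ (a • y + b • x) z = 0 then 1 else 0 := by
    intro x y
    rw [← orth hχ, Finset.mul_expect]
    refine Finset.expect_congr rfl fun z _ => ?_
    rw [← AddChar.map_add_eq_mul]
    congr 1
    simp only [map_add, map_smul, LinearMap.add_apply, LinearMap.smul_apply, smul_eq_mul]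
    ring
  have e2 : ∀ x, 𝔼 y, 𝔼 z, χ (a * Ψ y z + b * Ψ x z + c * Ψ x y) =
      𝔼 ρ, χ ((-(a⁻¹ * b * c)) * Ψ x x) * if ∀ z, Ψ ρ z = 0 then 1 else 0 := by
    intro x
    simp only [e1]
    let e : V ≃ V := ⟨fun y => a • y + b • x, fun ρ => a⁻¹ • (ρ - b • x),
      fun y => by simp [smul_smul, ha], fun ρ => by simp [smul_smul, ha]⟩
    refine Fintype.expect_equiv e _ _ fun y => ?_
    show _ = χ ((-(a⁻¹ * b * c)) * Ψ x x) * if ∀ z, Ψ (a • y + b • x) z = 0 then 1 else 0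
    by_cases h : ∀ z, Ψ (a • y + b • x) z = 0
    · rw [if_pos h]
      congr 2
      have := h x
      simp only [map_add, map_smul, LinearMap.add_apply, LinearMap.smul_apply, smul_eq_mul] at this
      rw [hs x y]
      have h3 : Ψ y x = a⁻¹ * (-(b * Ψ x x)) := by
        rw [eq_inv_mul_iff_mul_eq₀ ha]; linear_combination this
      rw [h3]; ring
    · rw [if_neg h, mul_zero, mul_zero]
  simp only [e2]
  have e3 : (𝔼 x, 𝔼 ρ, χ ((-(a⁻¹ * b * c)) * Ψ x x) * if ∀ z, Ψ ρ z = 0 then (1 : ℂ) else 0) =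
      (𝔼 x, χ ((-(a⁻¹ * b * c)) * Ψ x x)) * (rr Ψ : ℂ) := by
    rw [Finset.expect_mul]
    refine Finset.expect_congr rfl fun x _ => ?_
    rw [← Finset.mul_expect, rr]
    push_cast
    congr 1
    refine Finset.expect_congr rfl fun x _ => ?_
    split_ifs <;> simp
  rw [e3, norm_mul]
  have g := gauss hχ h2 Ψ hs (-(a⁻¹ * b * c))
    (neg_ne_zero.2 (mul_ne_zero (mul_ne_zero (inv_ne_zero ha) hb) hc))
  rw [← g, Real.sqrt_sq (norm_nonneg _), g, Complex.norm_real, Real.norm_of_nonneg (rr_nonneg Ψ)]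
  ring

/-- A nonzero symmetric form with two isotropic vectors which are not orthogonal. -/
theorem rr_le (Ψ : V →ₗ[F] V →ₗ[F] F) (p p' : V) (h0 : Ψ p p = 0) (h0' : Ψ p' p' = 0)
    (h : Ψ p p' ≠ 0) (hs : ∀ x y, Ψ x y = Ψ y x) : rr Ψ ≤ 1 / (Fintype.card F : ℝ) ^ 2 := by
  have h1 : Fintype.card {x // ∀ y, Ψ x y = 0} * (Fintype.card F) ^ 2 ≤ Fintype.card V := by
    rw [pow_two, ← Fintype.card_prod, ← Fintype.card_prod]
    apply Fintype.card_le_of_injective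
      (fun z : {x // ∀ y, Ψ x y = 0} × F × F => z.1.1 + z.2.1 • p + z.2.2 • p')
    rintro ⟨⟨x, hx⟩, s, t⟩ ⟨⟨x', hx'⟩, s', t'⟩ e
    simp only at e
    have ep := congrArg (fun v => Ψ v p) e
    have ep' := congrArg (fun v => Ψ v p') e
    simp only [map_add, map_smul, LinearMap.add_apply, LinearMap.smul_apply, smul_eq_mul, h0, h0',
      hx, hx', mul_zero, add_zero, zero_add] at ep ep'
    have h' : Ψ p' p ≠ 0 := by rwa [hs p' p]
    have ht : t = t' := mul_right_cancel₀ h' ep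
    have hs' : s = s' := mul_right_cancel₀ h ep'
    subst ht hs'
    have hx2 : x = x' := by simpa using e
    subst hx2
    rfl
  have hF : (0 : ℝ) < Fintype.card F := by exact_mod_cast Fintype.card_pos
  have hV : (0 : ℝ) < Fintype.card V := by exact_mod_cast Fintype.card_pos
  rw [rr, Fintype.expect_eq_sum_div_card, Finset.sum_boole, div_le_div_iff₀ hV (by positivity),
    one_mul, ← Fintype.card_subtype]
  exact_mod_cast h1

theorem rr_le_one (Ψ : V →ₗ[F] V →ₗ[F] F) : rr Ψ ≤ 1 := by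
  have : rr Ψ ≤ 𝔼 _x : V, (1 : ℝ) := Finset.expect_le_expect fun x _ => by split_ifs <;> norm_num
  simpa using this

theorem three_le {χ : AddChar F ℂ} (hχ : ∃ x, χ x ≠ 1) (h2 : (2 : F) ≠ 0)
    (Ψ : V →ₗ[F] V →ₗ[F] F) (hs : ∀ x y, Ψ x y = Ψ y x) (a b c : F) (ha : a ≠ 0) (hb : b ≠ 0)
    (hc : c ≠ 0) (h0 : (∀ x y, Ψ x y = 0) ∨ ∃ p p', Ψ p p = 0 ∧ Ψ p' p' = 0 ∧ Ψ p p' ≠ 0) :
    ‖𝔼 x, 𝔼 y, 𝔼 z, χ (a * Ψ y z + b * Ψ x z + c * Ψ x y)‖ ≤
      1 / (Fintype.card F : ℝ) * rr Ψ +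
        (1 - 1 / (Fintype.card F : ℝ)) * (if ∀ x y, Ψ x y = 0 then 1 else 0) := by
  rw [three_sum hχ h2 Ψ hs a b c ha hb hc]
  have hF : (0 : ℝ) < Fintype.card F := by exact_mod_cast Fintype.card_pos
  rcases h0 with h0 | ⟨p, p', h1, h2, h3⟩
  · rw [if_pos h0]
    have : rr Ψ = 1 := by
      rw [rr]
      have : ∀ x, (∀ y, Ψ x y = 0) := fun x y => h0 x y
      simp [this]
    rw [this]
    simp
  · rw [if_neg (fun h => h3 (h p p')), mul_zero, add_zero, mul_comm]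
    refine mul_le_mul_of_nonneg_right ?_ (rr_nonneg Ψ)
    rw [Real.sqrt_le_left (by positivity)]
    have := rr_le Ψ p p' h1 h2 h3 hs
    rw [one_div, inv_pow]
    rwa [one_div] at this

end Pool.Agent.K1H36.Perm
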