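import Pool.Agent.K1H36.Perm.Recursion

/-!
# The limit of the vanishing probability
-/

namespace Pool.Agent.K1H36.Perm

open MvPolynomial Finset Filter Topology
open scoped BigOperators

attribute [local instance] Classical.propDecidable

set_option linter.unusedSectionVars false

/-! ### A lemma on real sequences -/

theorem tendsto_of_rec (b : ℕ → ℝ) (C : ℝ) (hb0 : ∀ n, 0 ≤ b n) (hb1 : ∀ n, b n ≤ 1)
    (h1 : ∀ ε > 0, ∃ c > 0, ∃ N : ℕ, ∀ n ≥ N, ε ≤ b n → b (n + 1) ≤ b n - c + C / (n + 1))
    (h2 : ∃ N : ℕ, ∀ n ≥ N, b (n + 1) ≤ b n + C / (n + 1)) : Tendsto b atTop (𝓝 0) := by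
  rw [Metric.tendsto_atTop]
  intro ε' hε'
  obtain ⟨ε, hε, hεε⟩ : ∃ ε > 0, 2 * ε < ε' := ⟨ε' / 3, by positivity, by linarith⟩
  obtain ⟨c, hc, N1, hN1⟩ := h1 ε hε
  obtain ⟨N2, hN2⟩ := h2
  have hlim : Tendsto (fun n : ℕ => C / ((n : ℝ) + 1)) atTop (𝓝 0) :=
    tendsto_const_div_atTop_nhds_zero_nat C |>.comp (tendsto_add_atTop_nat 1) |>.congr
      (fun n => by simp)
  obtain ⟨N3, hN3⟩ := (Metric.tendsto_atTop.1 hlim) (min (c / 2) ε) (lt_min (by linarith) hε)
  set N := max N1 (max N2 N3) with hN
  have hsmall : ∀ n ≥ N, C / ((n : ℝ) + 1) ≤ c / 2 ∧ C / ((n : ℝ) + 1) ≤ ε := by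
    intro n hn
    have := hN3 n ((le_max_right _ _).trans ((le_max_right _ _).trans hn))
    rw [Real.dist_eq, sub_zero] at this
    have h3 := (le_abs_self _).trans this.le
    exact ⟨h3.trans (min_le_left _ _), h3.trans (min_le_right _ _)⟩
  -- some term is below `ε`
  obtain ⟨n0, hn0, hb⟩ : ∃ n0 ≥ N, b n0 < ε := by
    by_contra hcon
    push Not at hcon
    have hdec : ∀ k : ℕ, b (N + k) ≤ 1 - k * (c / 2) := by
      intro k
      induction k with
      | zero => simpa using hb1 N
      | succ k ih =>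
        have h3 := hN1 (N + k) ((le_max_left _ _).trans (Nat.le_add_right _ _))
          (hcon _ (Nat.le_add_right _ _))
        have h4 := (hsmall (N + k) (Nat.le_add_right _ _)).1
        rw [← add_assoc]
        push_cast at *
        linarith
    obtain ⟨k, hk⟩ := exists_nat_gt (1 / (c / 2))
    have h3 := hdec k
    have h4 := hb0 (N + k)
    rw [div_lt_iff₀ (by positivity)] at hk
    linarith
  refine ⟨n0, fun n hn => ?_⟩
  have key : ∀ k : ℕ, b (n0 + k) ≤ 2 * ε := by
    intro k
    induction k with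
    | zero => simp only [add_zero]; linarith
    | succ k ih =>
      have hge : n0 + k ≥ N := le_trans hn0 (Nat.le_add_right _ _)
      obtain ⟨s1, s2⟩ := hsmall (n0 + k) hge
      rw [← add_assoc]
      by_cases hlt : b (n0 + k) < ε
      · have h3 := hN2 (n0 + k) ((le_max_left _ _).trans ((le_max_right _ _).trans hge))
        linarith
      · have h3 := hN1 (n0 + k) ((le_max_left _ _).trans hge) (not_lt.1 hlt)
        linarith
  have h3 := key (n - n0)
  rw [Nat.add_sub_cancel' hn] at h3
  rw [Real.dist_eq, sub_zero, abs_of_nonneg (hb0 n)]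
  linarith

variable {F : Type*} [Field F] [Fintype F] {m : ℕ}

theorem W_zero : W F m 0 = 0 := by
  rw [W, Φ_zero, if_neg]
  intro h
  have := h ∅
  rw [sq, ex, Finset.sum_empty, coeff_zero_one] at this
  exact one_ne_zero this

theorem W_le (k : ℕ) : W F m k ≤ (Fintype.card F : ℝ) ^ k / (Fintype.card F : ℝ) ^ m := by
  have hq : (2 : ℝ) ≤ Fintype.card F := by
    exact_mod_cast (Fintype.one_lt_card : 1 < Fintype.card F)
  induction k with
  | zero => rw [W_zero]; positivity
  | succ k ih =>
    have h1 := W_step (F := F) (m := m) k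
    have h2 : (Fintype.card F : ℝ) ^ k / (Fintype.card F : ℝ) ^ m +
        (Fintype.card F : ℝ) ^ k / (Fintype.card F : ℝ) ^ m ≤
        (Fintype.card F : ℝ) ^ (k + 1) / (Fintype.card F : ℝ) ^ m := by
      rw [← add_div]
      gcongr
      rw [pow_succ]
      have : (0 : ℝ) ≤ (Fintype.card F : ℝ) ^ k := by positivity
      nlinarith
    linarith

/-- `β m`: the probability that the maximal permanental minors of an `(m - 1) × m` matrix all
vanish. -/
theorem gap (hq : 3 ≤ Fintype.card F) (D : ℕ) (hD : 2 ≤ D) (hm : D ≤ m) :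
    W F m (m - 1) - W F m (m - D) ≤ 3 ^ (D - 2) * (W F m (m - 1) - W F m (m - 2)) := by
  induction D, hD using Nat.le_induction with
  | base => simp
  | succ D hD ih =>
    have h1 := ih (by omega)
    have h2 := W_chain (F := F) (m := m) (m - (D + 1)) (by omega) hq
    rw [show m - (D + 1) + 1 = m - D by omega] at h2
    rw [show D + 1 - 2 = D - 2 + 1 by omega, pow_succ]
    linarith

theorem beta_tendsto (h2 : (2 : F) ≠ 0) (hq : 3 ≤ Fintype.card F) :
    Tendsto (fun m => W F m (m - 1)) atTop (𝓝 0) := by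
  have hq3 : (3 : ℝ) ≤ Fintype.card F := by exact_mod_cast hq
  set q : ℝ := (Fintype.card F : ℝ) with hqdef
  have hrec : ∀ m : ℕ, 2 ≤ m → W F (m + 1) (m + 1 - 1) ≤ W F m (m - 1) -
      (4 / 9) * (W F m (m - 1) - W F m (m - 2)) + 3 / (m + 1) := by
    intro m hm
    have h := recursion (F := F) (m := m) h2 hm
    rw [← hqdef] at h
    rw [Nat.add_sub_cancel]
    have hmono : W F m (m - 2) ≤ W F m (m - 1) := W_mono' (by omega)
    have hm1 : (0 : ℝ) < (m : ℝ) + 1 := by positivity
    have e1 : (q - 1) * (1 / q * W F m (m - 1) + (1 - 1 / q) * W F m (m - 2)) + W F m (m - 1) +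
        3 * q / (m + 1) = q * (W F m (m - 1) - (1 - 1 / q) ^ 2 *
          (W F m (m - 1) - W F m (m - 2)) + 3 / (m + 1)) := by
      have : q ≠ 0 := by linarith
      field_simp
      ring
    rw [e1] at h
    have h3 := le_of_mul_le_mul_left h (by linarith : 0 < q)
    have h4 : (4 : ℝ) / 9 ≤ (1 - 1 / q) ^ 2 := by
      have h5 : 1 / q ≤ 1 / 3 := one_div_le_one_div_of_le (by norm_num) hq3
      have h6 : (2 : ℝ) / 3 ≤ 1 - 1 / q := by linarith
      have h7 := pow_le_pow_left₀ (by norm_num) h6 2
      norm_num at h7 ⊢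
      exact h7
    have h5 := mul_le_mul_of_nonneg_right h4 (sub_nonneg.2 hmono)
    linarith
  apply tendsto_of_rec _ 3 (fun n => W_nonneg _) (fun n => W_le_one _)
  · intro ε hε
    obtain ⟨D, hD⟩ : ∃ D : ℕ, (1 / 3 : ℝ) ^ D < ε / 2 :=
      exists_pow_lt_of_lt_one (by positivity) (by norm_num)
    refine ⟨4 / 9 * (ε / 2 / 3 ^ D), by positivity, D + 2, fun m hm hge => ?_⟩
    have h3 := hrec m (by omega)
    have h4 := gap (F := F) (m := m) hq (D + 2) (by omega) hm
    have h5 := W_le (F := F) (m := m) (m - (D + 2))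
    have h6 : q ^ (m - (D + 2)) / q ^ m ≤ (1 / 3) ^ D := by
      have e1 : q ^ m = q ^ (m - (D + 2)) * q ^ (D + 2) := by
        rw [← pow_add]; congr 1; omega
      have hq0 : (0 : ℝ) < q ^ (m - (D + 2)) := by positivity
      rw [e1, ← div_div, div_self hq0.ne', one_div, one_div, inv_pow]
      apply inv_anti₀ (by positivity)
      calc (3 : ℝ) ^ D ≤ q ^ D := pow_le_pow_left₀ (by norm_num) hq3 D
        _ ≤ q ^ (D + 2) := pow_le_pow_right₀ (by linarith) (by omega)
    rw [← hqdef] at h5
    have h7 : ε / 2 ≤ 3 ^ D * (W F m (m - 1) - W F m (m - 2)) := by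
      rw [show D + 2 - 2 = D by omega] at h4
      linarith
    have h8 : ε / 2 / 3 ^ D ≤ W F m (m - 1) - W F m (m - 2) := by
      rw [div_le_iff₀ (by positivity), mul_comm]; exact h7
    linarith
  · refine ⟨2, fun m hm => ?_⟩
    have h3 := hrec m hm
    have hmono : W F m (m - 2) ≤ W F m (m - 1) := W_mono' (by omega)
    linarith

theorem functional_prob {χ : AddChar F ℂ} (hχ : ∃ x, χ x ≠ 1) {V : Type*} [AddCommGroup V]
    [Module F V] [Fintype V] (l : V →ₗ[F] F) :
    𝔼 v, (if l v = 0 then (1 : ℝ) else 0) =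
      if ∀ v, l v = 0 then 1 else 1 / (Fintype.card F : ℝ) := by
  have h1 : ((𝔼 v, (if l v = 0 then (1 : ℝ) else 0) : ℝ) : ℂ) =
      ((if ∀ v, l v = 0 then 1 else 1 / (Fintype.card F : ℝ) : ℝ) : ℂ) := by
    push_cast
    have e1 : ∀ v, (((if l v = 0 then (1 : ℝ) else 0) : ℝ) : ℂ) = 𝔼 s : F, χ ((s • l) v) := by
      intro v
      have h := orth (V := F) hχ (LinearMap.lsmul F F (l v))
      simp only [LinearMap.lsmul_apply, smul_eq_mul] at h
      simp only [LinearMap.smul_apply, smul_eq_mul, mul_comm _ (l v)]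
      rw [h]
      have : (∀ s : F, l v * s = 0) ↔ l v = 0 :=
        ⟨fun h => by simpa using h 1, fun h v => by rw [h, zero_mul]⟩
      simp only [this]
      split_ifs <;> simp
    simp only [e1]
    rw [Finset.expect_comm]
    simp only [orth hχ]
    by_cases hl : ∀ v, l v = 0
    · have : ∀ s : F, ∀ v, (s • l) v = 0 := fun s v => by
        rw [LinearMap.smul_apply, hl, smul_zero]
      simp [this, hl]
    · have : ∀ s : F, (∀ v, (s • l) v = 0) ↔ s = 0 := by
        intro s
        constructor
        · intro h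
          by_contra hs
          exact hl fun v => by
            have := h v
            rw [LinearMap.smul_apply, smul_eq_mul] at this
            exact (mul_eq_zero.1 this).resolve_left hs
        · intro h v
          rw [h, zero_smul]; rfl
      simp only [this, hl, if_false]
      rw [Fintype.expect_eq_sum_div_card]
      simp
  exact_mod_cast h1

theorem prob_eq {χ : AddChar F ℂ} (hχ : ∃ x, χ x ≠ 1) (k : ℕ) :
    𝔼 A : Fin (k + 1) → Fin (k + 1) → F,
      (if Matrix.permanent (Matrix.of A) = 0 then (1 : ℝ) else 0) =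
      1 / (Fintype.card F : ℝ) + (1 - 1 / (Fintype.card F : ℝ)) * W F (k + 1) k := by
  rw [resample 0]
  have hcard : (univ.erase (0 : Fin (k + 1))).card = k := by
    rw [Finset.card_erase_of_mem (Finset.mem_univ _), Finset.card_univ, Fintype.card_fin]
    simp
  have key : ∀ A : Fin (k + 1) → Fin (k + 1) → F, 𝔼 c,
      (if Matrix.permanent (Matrix.of (Function.update A 0 c)) = 0 then (1 : ℝ) else 0) =
      1 / (Fintype.card F : ℝ) + (1 - 1 / (Fintype.card F : ℝ)) *
        Φ 0 (∏ x ∈ univ.erase (0 : Fin (k + 1)), lin (A x)) := by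
    intro A
    set Q := ∏ x ∈ univ.erase (0 : Fin (k + 1)), lin (A x) with hQdef
    have hQ : Q.IsHomogeneous (k + 1 - 1) := by
      have hh := prod_hom (univ.erase (0 : Fin (k + 1))) A
      rw [hcard] at hh
      exact hh
    have e1 : ∀ c, Matrix.permanent (Matrix.of (Function.update A 0 c)) = ell Q c := by
      intro c
      rw [← sq_permanent, ← Finset.mul_prod_erase univ _ (Finset.mem_univ (0 : Fin (k + 1)))]
      show sq univ (lin (Function.update A 0 c 0) *
        ∏ x ∈ univ.erase (0 : Fin (k + 1)), lin (Function.update A 0 c x)) = sq univ (lin c * Q)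
      rw [Function.update_self]
      congr 2
      refine Finset.prod_congr rfl fun x hx => ?_
      rw [Function.update_of_ne (Finset.ne_of_mem_erase hx)]
    simp only [e1]
    rw [functional_prob hχ, Φ_zero]
    simp only [ell_eq_zero_iff (by omega) hQ]
    split_ifs <;> ring
  simp only [key]
  have h0 := marg' (m := k + 1) (F := F) (univ.erase (0 : Fin (k + 1))) 0
  rw [hcard, zero_add] at h0
  rw [← h0, Finset.expect_add_distrib, Finset.expect_const univ_nonempty, Finset.mul_expect]

/-- The probability that the permanent of a uniform random `n × n` matrix over a finite field `F`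
of odd order vanishes tends to `1 / |F|`. -/
theorem main (F : Type*) [Field F] [Fintype F] [DecidableEq F] (hF : Odd (Fintype.card F)) :
    Tendsto (fun n : ℕ =>
      ((univ.filter fun A : Matrix (Fin n) (Fin n) F => A.permanent = 0).card : ℝ) /
        (Fintype.card (Matrix (Fin n) (Fin n) F) : ℝ)) atTop (𝓝 (1 / (Fintype.card F : ℝ))) := by
  have hchar : ringChar F ≠ 2 := by
    intro h
    have := FiniteField.even_card_iff_char_two.1 h
    rw [Nat.odd_iff] at hF
    omega
  have h2 : (2 : F) ≠ 0 := Ring.two_ne_zero hchar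
  have hq : 3 ≤ Fintype.card F := by
    have h1 : 1 < Fintype.card F := Fintype.one_lt_card
    obtain ⟨k, hk⟩ := hF
    omega
  obtain ⟨χ, hχ⟩ := exists_char F
  have hb := beta_tendsto h2 hq
  rw [← tendsto_add_atTop_iff_nat 1]
  have hb1 := (tendsto_add_atTop_iff_nat 1).2 hb
  have h3 : Tendsto (fun k : ℕ => 1 / (Fintype.card F : ℝ) +
      (1 - 1 / (Fintype.card F : ℝ)) * W F (k + 1) (k + 1 - 1)) atTop
      (𝓝 (1 / (Fintype.card F : ℝ) + (1 - 1 / (Fintype.card F : ℝ)) * 0)) :=
    tendsto_const_nhds.add (hb1.const_mul _)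
  rw [mul_zero, add_zero] at h3
  refine h3.congr fun k => ?_
  rw [Nat.add_sub_cancel, ← prob_eq hχ k, Fintype.expect_eq_sum_div_card]
  have e2 : ((univ.filter fun A : Matrix (Fin (k + 1)) (Fin (k + 1)) F =>
      A.permanent = 0).card : ℝ) = ∑ A : Fin (k + 1) → Fin (k + 1) → F,
        (if Matrix.permanent (Matrix.of A) = 0 then (1 : ℝ) else 0) := by
    rw [Finset.card_filter]
    push_cast
    refine (Fintype.sum_equiv Matrix.of _ _ fun A => ?_).symm
    by_cases h : Matrix.permanent (Matrix.of A) = 0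
    · simp only [h, if_true]
    · simp only [h, if_false]
  rw [e2, Fintype.card_congr (Matrix.of : (Fin (k + 1) → Fin (k + 1) → F) ≃ _)]
  congr 1
  refine Finset.sum_congr rfl fun A _ => ?_
  by_cases h : Matrix.permanent (Matrix.of A) = 0
  · simp only [h, if_true]
  · simp only [h, if_false]

end Pool.Agent.K1H36.Perm
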