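import Pool.Agent.K1H36.Perm.Chain
import Pool.Agent.K1H36.Perm.Chars

/-!
# Joint character moments of the maximal permanental minors of a random matrix
-/

namespace Pool.Agent.K1H36.Perm

open MvPolynomial Finset
open scoped BigOperators

attribute [local instance] Classical.propDecidable

set_option linter.unusedSectionVars false

variable {F : Type*} [Field F] [Fintype F] {m : ℕ}

/-- The maximal permanental minor of the `(m + 1) × m` matrix `R` without row `a`. -/
noncomputable def pm (R : Fin (m + 1) → Fin m → F) (a : Fin (m + 1)) : F :=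
  sq univ (∏ x ∈ univ.erase a, lin (R x))

/-- The probability that all maximal permanental minors of an `(m + 1) × m` matrix vanish. -/
theorem tall_eq : 𝔼 R : Fin (m + 1) → Fin m → F, (if ∀ a, pm R a = 0 then (1 : ℝ) else 0) =
    W F (m + 1) m := by
  have h := W_eq (F := F) (m := m + 1) m 0
  rw [zero_add] at h
  rw [h]
  refine (Fintype.expect_equiv (Equiv.piComm (fun (_ : Fin m) (_ : Fin (m + 1)) => F)) _ _
    fun v => ?_).symm
  rw [Φ_zero]
  congr 1
  rw [eq_iff_iff]
  have h1 : ∀ a, pm ((Equiv.piComm (fun (_ : Fin m) (_ : Fin (m + 1)) => F)) v) a =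
      sq (univ.erase a) (∏ j, lin (v j)) := by
    intro a
    rw [pm, ← sq_transpose]
    rfl
  constructor
  · intro hZ a
    rw [h1, hZ]
  · intro hZ S
    by_cases hS : S.card = m
    · obtain ⟨a, ha⟩ : ∃ a, a ∉ S := by
        by_contra hcon
        push Not at hcon
        have : S = univ := Finset.eq_univ_iff_forall.2 hcon
        rw [this, Finset.card_univ, Fintype.card_fin] at hS
        omega
      have h2 : S = univ.erase a := by
        apply Finset.eq_of_subset_of_card_le
        · intro x hx
          exact Finset.mem_erase.2 ⟨fun e => ha (e ▸ hx), Finset.mem_univ _⟩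
        · rw [Finset.card_erase_of_mem (Finset.mem_univ _), Finset.card_univ, Fintype.card_fin, hS]
          simp
      rw [h2, ← h1, hZ]
    · have hh := prod_hom (univ : Finset (Fin m)) v
      rw [Finset.card_univ, Fintype.card_fin] at hh
      exact sq_eq_zero hh hS

/-- The linear functional `v ↦ sq univ (lin v * Q)`. -/
noncomputable def ell (Q : MvPolynomial (Fin m) F) : (Fin m → F) →ₗ[F] F where
  toFun v := sq univ (lin v * Q)
  map_add' v w := by rw [lin_add, add_mul, sq_add]
  map_smul' c v := by rw [lin_smul, mul_assoc, sq_C_mul]; rfl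

/-- The bilinear form `(v, w) ↦ sq univ (lin v * (lin w * Q))`. -/
noncomputable def Psi (Q : MvPolynomial (Fin m) F) : (Fin m → F) →ₗ[F] (Fin m → F) →ₗ[F] F :=
  LinearMap.mk₂ F (fun v w => sq univ (lin v * (lin w * Q)))
    (fun v v' w => by rw [lin_add, add_mul, sq_add])
    (fun c v w => by rw [lin_smul, mul_assoc, sq_C_mul]; rfl)
    (fun v w w' => by rw [lin_add, add_mul, mul_add, sq_add])
    (fun c v w => by rw [lin_smul, mul_assoc, mul_left_comm, sq_C_mul]; rfl)

theorem Psi_apply (Q : MvPolynomial (Fin m) F) (v w : Fin m → F) :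
    Psi Q v w = sq univ (lin v * (lin w * Q)) := rfl

theorem Psi_symm (Q : MvPolynomial (Fin m) F) (v w : Fin m → F) : Psi Q v w = Psi Q w v := by
  rw [Psi_apply, Psi_apply, mul_left_comm]

theorem Psi_diag (Q : MvPolynomial (Fin m) F) (i : Fin m) :
    Psi Q (Pi.single i 1) (Pi.single i 1) = 0 := by
  rw [Psi_apply, sq_lin_mul]
  refine Finset.sum_eq_zero fun j _ => ?_
  by_cases hj : j = i
  · subst hj
    rw [sq_lin_mul, Finset.sum_eq_zero, mul_zero]
    intro k hk
    rw [Pi.single_eq_of_ne (Finset.ne_of_mem_erase hk), zero_mul]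
  · rw [Pi.single_eq_of_ne hj, zero_mul]

theorem ell_eq_zero_iff {Q : MvPolynomial (Fin m) F} (hm : 1 ≤ m)
    (hQ : Q.IsHomogeneous (m - 1)) : (∀ v, ell Q v = 0) ↔ Z Q := by
  have hh : ∀ v : Fin m → F, (lin v * Q).IsHomogeneous m := by
    intro v
    have := (lin_hom v).mul hQ
    rwa [show 1 + (m - 1) = m by omega] at this
  constructor
  · intro h
    exact Z_of_forall hQ (by omega) fun c => (Z_iff_top (hh c)).2 (h c)
  · intro h v
    exact (h.lin_mul v) univ

theorem Psi_left_iff {Q : MvPolynomial (Fin m) F} (hm : 2 ≤ m)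
    (hQ : Q.IsHomogeneous (m - 2)) (v : Fin m → F) :
    (∀ w, Psi Q v w = 0) ↔ Z (lin v * Q) := by
  have hh : (lin v * Q).IsHomogeneous (m - 1) := by
    have := (lin_hom v).mul hQ
    rwa [show 1 + (m - 2) = m - 1 by omega] at this
  rw [← ell_eq_zero_iff (by omega) hh]
  refine forall_congr' fun w => ?_
  rw [Psi_symm]
  rfl

theorem Psi_zero_iff {Q : MvPolynomial (Fin m) F} (hm : 2 ≤ m)
    (hQ : Q.IsHomogeneous (m - 2)) : (∀ v w, Psi Q v w = 0) ↔ Z Q := by
  constructor
  · intro h
    exact Z_of_forall hQ (by omega) fun c => (Psi_left_iff hm hQ c).1 (h c)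
  · intro h v w
    rw [Psi_apply]
    exact ((h.lin_mul w).lin_mul v) univ

theorem rr_Psi {Q : MvPolynomial (Fin m) F} (hm : 2 ≤ m) (hQ : Q.IsHomogeneous (m - 2)) :
    rr (Psi Q) = Φ 1 Q := by
  rw [rr, Φ_succ]
  refine Finset.expect_congr rfl fun v _ => ?_
  rw [Φ_zero]
  congr 1
  rw [eq_iff_iff]
  exact Psi_left_iff hm hQ v

theorem Psi_alt (Q : MvPolynomial (Fin m) F) : (∀ x y, Psi Q x y = 0) ∨
    ∃ p p', Psi Q p p = 0 ∧ Psi Q p' p' = 0 ∧ Psi Q p p' ≠ 0 := by
  by_cases h : ∃ i j, Psi Q (Pi.single i 1) (Pi.single j 1) ≠ 0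
  · obtain ⟨i, j, hij⟩ := h
    exact Or.inr ⟨_, _, Psi_diag Q i, Psi_diag Q j, hij⟩
  · left
    push Not at h
    have h1 : Psi Q = 0 := by
      apply LinearMap.pi_ext'
      intro i
      ext1
      apply LinearMap.pi_ext'
      intro j
      ext1
      simpa using h i j
    intro x y
    rw [h1]; rfl

/-! ### Moments -/

theorem pair_moment {χ : AddChar F ℂ} (hχ : ∃ x, χ x ≠ 1) (hm : 1 ≤ m) {a b : Fin (m + 1)}
    (hab : a ≠ b) {s t : F} (hs : s ≠ 0) (ht : t ≠ 0) :
    𝔼 R : Fin (m + 1) → Fin m → F, χ (s * pm R a + t * pm R b) = ((W F m (m - 1) : ℝ) : ℂ) := by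
  rw [resample b, resample a]
  have hcard : ((univ.erase a).erase b : Finset (Fin (m + 1))).card = m - 1 := by
    rw [Finset.card_erase_of_mem (Finset.mem_erase.2 ⟨hab.symm, Finset.mem_univ _⟩),
      Finset.card_erase_of_mem (Finset.mem_univ _), Finset.card_univ, Fintype.card_fin]
    omega
  have key : ∀ R : Fin (m + 1) → Fin m → F,
      𝔼 x, 𝔼 y, χ (s * pm (Function.update (Function.update R a x) b y) a +
        t * pm (Function.update (Function.update R a x) b y) b) =
      ((Φ 0 (∏ x ∈ (univ.erase a).erase b, lin (R x)) : ℝ) : ℂ) := by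
    intro R
    set Q := ∏ x ∈ (univ.erase a).erase b, lin (R x) with hQdef
    have hQ : Q.IsHomogeneous (m - 1) := by rw [hQdef, ← hcard]; exact prod_hom _ _
    have ea : ∀ x y, pm (Function.update (Function.update R a x) b y) a = ell Q y := by
      intro x y
      rw [pm, ← Finset.mul_prod_erase (univ.erase a) _ (Finset.mem_erase.2 ⟨hab.symm, Finset.mem_univ b⟩),
        Function.update_self]
      show _ = sq univ (lin y * Q)
      congr 2
      refine Finset.prod_congr rfl fun z hz => ?_
      rw [Function.update_of_ne (Finset.ne_of_mem_erase hz),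
        Function.update_of_ne (Finset.ne_of_mem_erase (Finset.mem_of_mem_erase hz))]
    have eb : ∀ x y, pm (Function.update (Function.update R a x) b y) b = ell Q x := by
      intro x y
      rw [pm, ← Finset.mul_prod_erase (univ.erase b) _ (Finset.mem_erase.2 ⟨hab, Finset.mem_univ a⟩),
        Function.update_of_ne hab, Function.update_self]
      show _ = sq univ (lin x * Q)
      congr 2
      rw [Finset.erase_right_comm]
      refine Finset.prod_congr rfl fun z hz => ?_
      rw [Function.update_of_ne (Finset.ne_of_mem_erase hz),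
        Function.update_of_ne (Finset.ne_of_mem_erase (Finset.mem_of_mem_erase hz))]
    have e1 : ∀ x y, χ (s * pm (Function.update (Function.update R a x) b y) a +
        t * pm (Function.update (Function.update R a x) b y) b) =
        χ ((t • ell Q) x) * χ ((s • ell Q) y) := by
      intro x y
      rw [ea, eb, ← AddChar.map_add_eq_mul, add_comm]
      rfl
    simp only [e1, ← Finset.mul_expect, orth hχ]
    rw [← Finset.expect_mul, orth hχ, Φ_zero, ← ell_eq_zero_iff hm hQ]
    have e2 : ∀ r : F, r ≠ 0 → ((∀ v, (r • ell Q) v = 0) ↔ ∀ v, ell Q v = 0) := by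
      intro r hr
      refine forall_congr' fun v => ?_
      rw [LinearMap.smul_apply, smul_eq_mul, mul_eq_zero]
      exact or_iff_right hr
    simp only [e2 s hs, e2 t ht]
    split_ifs <;> simp
  simp only [key]
  have h := marg' (m := m) (F := F) ((univ.erase a).erase b) 0
  rw [hcard, zero_add] at h
  rw [← h]
  push_cast
  rfl

theorem triple_moment {χ : AddChar F ℂ} (hχ : ∃ x, χ x ≠ 1) (h2 : (2 : F) ≠ 0) (hm : 2 ≤ m)
    {a b c : Fin (m + 1)} (hab : a ≠ b) (hac : a ≠ c) (hbc : b ≠ c) {s t u : F} (hs : s ≠ 0)
    (ht : t ≠ 0) (hu : u ≠ 0) :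
    ‖𝔼 R : Fin (m + 1) → Fin m → F, χ (s * pm R a + t * pm R b + u * pm R c)‖ ≤
      1 / (Fintype.card F : ℝ) * W F m (m - 1) +
        (1 - 1 / (Fintype.card F : ℝ)) * W F m (m - 2) := by
  rw [resample c, resample b, resample a]
  set T : Finset (Fin (m + 1)) := ((univ.erase a).erase b).erase c with hT
  have hcard : T.card = m - 2 := by
    rw [hT, Finset.card_erase_of_mem (by simp [hac.symm, hbc.symm]),
      Finset.card_erase_of_mem (by simp [hab.symm]),
      Finset.card_erase_of_mem (Finset.mem_univ _), Finset.card_univ, Fintype.card_fin]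
    omega
  have key : ∀ R : Fin (m + 1) → Fin m → F,
      ‖𝔼 x, 𝔼 y, 𝔼 z,
        χ (s * pm (Function.update (Function.update (Function.update R a x) b y) c z) a +
        t * pm (Function.update (Function.update (Function.update R a x) b y) c z) b +
        u * pm (Function.update (Function.update (Function.update R a x) b y) c z) c)‖ ≤
      1 / (Fintype.card F : ℝ) * Φ 1 (∏ x ∈ T, lin (R x)) +
        (1 - 1 / (Fintype.card F : ℝ)) * Φ 0 (∏ x ∈ T, lin (R x)) := by
    intro R
    set Q := ∏ x ∈ T, lin (R x) with hQdef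
    have hQ : Q.IsHomogeneous (m - 2) := by rw [hQdef, ← hcard]; exact prod_hom _ _
    have eT : ∀ x y z, ∏ i ∈ T, lin (Function.update (Function.update
        (Function.update R a x) b y) c z i) = Q := by
      intro x y z
      refine Finset.prod_congr rfl fun i hi => ?_
      rw [hT] at hi
      rw [Function.update_of_ne (Finset.ne_of_mem_erase hi),
        Function.update_of_ne (Finset.ne_of_mem_erase (Finset.mem_of_mem_erase hi)),
        Function.update_of_ne (Finset.ne_of_mem_erase (Finset.mem_of_mem_erase
          (Finset.mem_of_mem_erase hi)))]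
    have ea : ∀ x y z, pm (Function.update (Function.update (Function.update R a x) b y) c z) a =
        Psi Q y z := by
      intro x y z
      rw [pm, ← Finset.mul_prod_erase (univ.erase a) _
        (Finset.mem_erase.2 ⟨hab.symm, Finset.mem_univ b⟩),
        ← Finset.mul_prod_erase ((univ.erase a).erase b) _ (a := c) (by simp [hac.symm, hbc.symm]),
        Function.update_of_ne hbc, Function.update_self, Function.update_self]
      rw [← hT, eT]
      rfl
    have eb : ∀ x y z, pm (Function.update (Function.update (Function.update R a x) b y) c z) b =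
        Psi Q x z := by
      intro x y z
      rw [pm, ← Finset.mul_prod_erase (univ.erase b) _
        (Finset.mem_erase.2 ⟨hab, Finset.mem_univ a⟩),
        ← Finset.mul_prod_erase ((univ.erase b).erase a) _ (a := c) (by simp [hac.symm, hbc.symm]),
        Function.update_of_ne hac, Function.update_of_ne hab, Function.update_self,
        Function.update_self]
      rw [show ((univ.erase b).erase a).erase c = T by rw [hT, Finset.erase_right_comm (a := b)], eT]
      rfl
    have ec : ∀ x y z, pm (Function.update (Function.update (Function.update R a x) b y) c z) c =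
        Psi Q x y := by
      intro x y z
      rw [pm, ← Finset.mul_prod_erase (univ.erase c) _
        (Finset.mem_erase.2 ⟨hac, Finset.mem_univ a⟩),
        ← Finset.mul_prod_erase ((univ.erase c).erase a) _ (a := b) (by simp [hab.symm, hbc]),
        Function.update_of_ne hac, Function.update_of_ne hab, Function.update_self,
        Function.update_of_ne hbc, Function.update_self]
      rw [show ((univ.erase c).erase a).erase b = T by
        rw [hT, Finset.erase_right_comm (a := c) (b := a), Finset.erase_right_comm (a := c)], eT]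
      rfl
    simp only [ea, eb, ec]
    have := three_le hχ h2 (Psi Q) (Psi_symm Q) s t u hs ht hu (Psi_alt Q)
    rw [rr_Psi hm hQ] at this
    rw [Φ_zero]
    simp only [Psi_zero_iff hm hQ] at this
    exact this
  have h1 := marg' (m := m) (F := F) T 1
  have h0 := marg' (m := m) (F := F) T 0
  rw [hcard, show 1 + (m - 2) = m - 1 by omega] at h1
  rw [hcard, zero_add] at h0
  rw [← h1, ← h0, Finset.mul_expect, Finset.mul_expect, ← Finset.expect_add_distrib]
  refine le_trans ?_ (Finset.expect_le_expect fun R _ => key R)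
  rw [Fintype.expect_eq_sum_div_card, Fintype.expect_eq_sum_div_card, norm_div]
  rw [Complex.norm_natCast]
  gcongr
  exact norm_sum_le _ _

end Pool.Agent.K1H36.Perm
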