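import Mathlib

/-!
# Products of linear forms and permanents

`lin v` is the linear form with coefficient vector `v`; `sq S P` is the coefficient in `P` of the
squarefree monomial with support `S`.
-/

namespace Pool.Agent.K1H36.Perm

open MvPolynomial Finset

variable {F : Type*} [Field F] {m : ℕ}

/-- The linear form with coefficients `v`. -/
noncomputable def lin (v : Fin m → F) : MvPolynomial (Fin m) F := ∑ i, C (v i) * X i

/-- The exponent of the squarefree monomial with support `S`. -/
noncomputable def ex (S : Finset (Fin m)) : Fin m →₀ ℕ := ∑ i ∈ S, Finsupp.single i 1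

/-- The coefficient of the squarefree monomial with support `S`. -/
noncomputable def sq (S : Finset (Fin m)) (P : MvPolynomial (Fin m) F) : F := P.coeff (ex S)

/-- All squarefree coefficients vanish. -/
def Z (P : MvPolynomial (Fin m) F) : Prop := ∀ S, sq S P = 0

theorem ex_apply (S : Finset (Fin m)) (i : Fin m) : ex S i = if i ∈ S then 1 else 0 := by
  simp [ex, Finsupp.finsetSum_apply, Finsupp.single_apply]

theorem ex_erase (S : Finset (Fin m)) (i : Fin m) (h : i ∈ S) :
    ex S - Finsupp.single i 1 = ex (S.erase i) := by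
  ext j
  rw [Finsupp.tsub_apply, ex_apply, ex_apply, Finsupp.single_apply]
  by_cases hj : i = j
  · subst hj; simp [h]
  · simp [hj, Finset.mem_erase, Ne.symm hj]

theorem sq_add (S : Finset (Fin m)) (P Q : MvPolynomial (Fin m) F) :
    sq S (P + Q) = sq S P + sq S Q := coeff_add _ _ _

theorem sq_sub (S : Finset (Fin m)) (P Q : MvPolynomial (Fin m) F) :
    sq S (P - Q) = sq S P - sq S Q := coeff_sub _ _ _ _

theorem sq_C_mul (S : Finset (Fin m)) (a : F) (P : MvPolynomial (Fin m) F) :
    sq S (C a * P) = a * sq S P := coeff_C_mul _ _ _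

theorem sq_X_mul (S : Finset (Fin m)) (i : Fin m) (P : MvPolynomial (Fin m) F) :
    sq S (X i * P) = if i ∈ S then sq (S.erase i) P else 0 := by
  rw [sq, coeff_X_mul']
  by_cases h : i ∈ S
  · rw [if_pos h, if_pos, ex_erase S i h, sq]
    rw [Finsupp.mem_support_iff, ex_apply, if_pos h]; exact one_ne_zero
  · rw [if_neg h, if_neg]
    rw [Finsupp.mem_support_iff, ex_apply, if_neg h]; simp

theorem lin_mul (c : Fin m → F) (P : MvPolynomial (Fin m) F) :
    lin c * P = ∑ i, C (c i) * (X i * P) := by
  rw [lin, Finset.sum_mul]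
  exact Finset.sum_congr rfl fun i _ => by ring

theorem sq_sum {α : Type*} (S : Finset (Fin m)) (s : Finset α) (f : α → MvPolynomial (Fin m) F) :
    sq S (∑ i ∈ s, f i) = ∑ i ∈ s, sq S (f i) := coeff_sum _ _ _

theorem sq_lin_mul (S : Finset (Fin m)) (c : Fin m → F) (P : MvPolynomial (Fin m) F) :
    sq S (lin c * P) = ∑ i ∈ S, c i * sq (S.erase i) P := by
  rw [lin_mul, sq_sum, ← Finset.sum_subset (Finset.subset_univ S)]
  · exact Finset.sum_congr rfl fun i hi => by rw [sq_C_mul, sq_X_mul, if_pos hi]
  · intro i _ hi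
    rw [sq_C_mul, sq_X_mul, if_neg hi, mul_zero]

theorem lin_add (v w : Fin m → F) : lin (v + w) = lin v + lin w := by
  simp [lin, Finset.sum_add_distrib, add_mul]

theorem lin_smul (a : F) (v : Fin m → F) : lin (a • v) = C a * lin v := by
  simp [lin, Finset.mul_sum, mul_assoc]

theorem lin_sub (v w : Fin m → F) : lin (v - w) = lin v - lin w := by
  simp [lin, Finset.sum_sub_distrib, sub_mul]

theorem lin_hom (v : Fin m → F) : (lin v).IsHomogeneous 1 := by
  apply IsHomogeneous.sum
  intro i _
  simpa using (isHomogeneous_C (Fin m) (v i)).mul (isHomogeneous_X F i)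

theorem prod_hom {α : Type*} (S : Finset α) (R : α → Fin m → F) :
    (∏ x ∈ S, lin (R x)).IsHomogeneous S.card := by
  have := IsHomogeneous.prod S (fun x => lin (R x)) (fun _ => 1) (fun x _ => lin_hom (R x))
  simpa using this

theorem degree_ex (S : Finset (Fin m)) : (ex S).degree = S.card := by
  rw [ex, map_sum]
  simp

theorem sq_eq_zero {P : MvPolynomial (Fin m) F} {d : ℕ} (hP : P.IsHomogeneous d)
    {S : Finset (Fin m)} (h : S.card ≠ d) : sq S P = 0 :=
  hP.coeff_eq_zero (by rw [degree_ex]; exact h)

theorem Z.lin_mul {P : MvPolynomial (Fin m) F} (h : Z P) (c : Fin m → F) : Z (lin c * P) := by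
  intro S
  rw [sq_lin_mul]
  exact Finset.sum_eq_zero fun i _ => by rw [h, mul_zero]

theorem Z_of_forall {P : MvPolynomial (Fin m) F} {d : ℕ} (hP : P.IsHomogeneous d) (hd : d < m)
    (h : ∀ c, Z (lin c * P)) : Z P := by
  intro S
  by_cases hS : S.card = d
  · obtain ⟨a, ha⟩ : ∃ a, a ∉ S := by
      by_contra hcon
      push Not at hcon
      have : S = univ := Finset.eq_univ_iff_forall.2 hcon
      rw [this, Finset.card_univ, Fintype.card_fin] at hS
      omega
    have h1 := h (Pi.single a 1) (insert a S)
    rw [sq_lin_mul, Finset.sum_eq_single a] at h1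
    · rwa [Pi.single_eq_same, one_mul, Finset.erase_insert ha] at h1
    · intro b _ hb
      rw [Pi.single_eq_of_ne hb, zero_mul]
    · intro hcon
      exact absurd (Finset.mem_insert_self a S) hcon
  · exact sq_eq_zero hP hS

theorem Z_iff_top {P : MvPolynomial (Fin m) F} (hP : P.IsHomogeneous m) :
    Z P ↔ sq univ P = 0 := by
  refine ⟨fun h => h _, fun h S => ?_⟩
  by_cases hS : S.card = m
  · have : S = univ := by
      rw [← Finset.card_eq_iff_eq_univ, hS, Fintype.card_fin]
    rw [this, h]
  · exact sq_eq_zero hP hS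

/-! ### Transposition -/

theorem coeff_one_prod {α R : Type*} [CommRing R] [DecidableEq α] (S : Finset α) (Q a : α → R) :
    (∏ x ∈ S, (Polynomial.C (Q x) + Polynomial.C (a x) * Polynomial.X)).coeff 1 =
      ∑ i ∈ S, a i * ∏ x ∈ S.erase i, Q x := by
  have h0 : ∀ S : Finset α,
      (∏ x ∈ S, (Polynomial.C (Q x) + Polynomial.C (a x) * Polynomial.X)).coeff 0 =
        ∏ x ∈ S, Q x := by
    intro S
    rw [Polynomial.coeff_zero_eq_eval_zero, Polynomial.eval_prod]
    simp
  induction S using Finset.induction_on with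
  | empty => simp [Polynomial.coeff_one]
  | insert j S hj ih =>
    rw [Finset.prod_insert hj, Polynomial.mul_coeff_one, Finset.sum_insert hj, Finset.erase_insert hj]
    rw [ih, h0]
    have e0 : (Polynomial.C (Q j) + Polynomial.C (a j) * Polynomial.X).coeff 0 = Q j := by simp
    have e1 : (Polynomial.C (Q j) + Polynomial.C (a j) * Polynomial.X).coeff 1 = a j := by
      simp [Polynomial.coeff_C]
    rw [e0, e1, Finset.mul_sum, add_comm]
    congr 1
    refine Finset.sum_congr rfl fun i hi => ?_
    have hij : i ≠ j := fun h => hj (h ▸ hi)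
    rw [Finset.erase_insert_of_ne hij.symm, Finset.prod_insert (fun h => hj (Finset.mem_of_mem_erase h))]
    ring

theorem ex_cons (k : ℕ) : ex (univ : Finset (Fin (k + 1))) = (ex (univ : Finset (Fin k))).cons 1 := by
  ext j
  refine Fin.cases ?_ (fun j => ?_) j
  · simp [ex_apply]
  · simp [ex_apply]

theorem finSucc_lin {k : ℕ} (b : Fin (k + 1) → F) : finSuccEquiv F k (lin b) =
    Polynomial.C (lin (fun j => b j.succ)) + Polynomial.C (C (b 0)) * Polynomial.X := by
  rw [lin, map_sum, Fin.sum_univ_succ, map_mul, finSuccEquiv_X_zero, lin, map_sum, add_comm]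
  congr 1
  · refine Finset.sum_congr rfl fun j _ => ?_
    rw [map_mul, finSuccEquiv_X_succ, map_mul]
    congr 1
    simp [finSuccEquiv_apply]
  · congr 1
    simp [finSuccEquiv_apply]

theorem sq_univ_succ {α : Type*} [DecidableEq α] {k : ℕ} (S : Finset α) (R : α → Fin (k + 1) → F) :
    sq univ (∏ x ∈ S, lin (R x)) =
      ∑ i ∈ S, R i 0 * sq univ (∏ x ∈ S.erase i, lin (fun j => R x j.succ)) := by
  rw [sq, ex_cons, ← finSuccEquiv_coeff_coeff, map_prod]
  simp only [finSucc_lin]
  rw [coeff_one_prod, coeff_sum]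
  exact Finset.sum_congr rfl fun i _ => coeff_C_mul _ _ _

/-- **Transposition.** -/
theorem sq_transpose {n : ℕ} : ∀ (k : ℕ) (v : Fin k → Fin n → F) (S : Finset (Fin n)),
    sq univ (∏ x ∈ S, lin (fun j => v j x)) = sq S (∏ j, lin (v j))
  | 0, v, S => by
    rw [Finset.univ_eq_empty, Finset.prod_empty]
    have h1 : ∀ x ∈ S, lin (fun j => v j x) = 0 := fun x _ => by simp [lin]
    rw [Finset.prod_congr rfl h1, Finset.prod_const]
    by_cases hS : S = ∅
    · subst hS; simp [sq, ex]
    · rw [zero_pow (by rwa [Ne, Finset.card_eq_zero])]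
      rw [sq, coeff_zero, sq, coeff_one, if_neg]
      intro h
      apply hS
      have := degree_ex S
      rw [← h, map_zero] at this
      exact Finset.card_eq_zero.1 this.symm
  | k + 1, v, S => by
    rw [sq_univ_succ, Fin.prod_univ_succ, sq_lin_mul]
    refine Finset.sum_congr rfl fun i _ => ?_
    rw [sq_transpose k (fun j => v j.succ)]

/-- The coefficient of the full squarefree monomial is the permanent. -/
theorem sq_permanent {n : ℕ} (A : Matrix (Fin n) (Fin n) F) :
    sq univ (∏ i, lin (A i)) = A.permanent := by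
  have h1 : ∏ i, lin (A i) = ∑ f : Fin n → Fin n, ∏ i, (C (A i (f i)) * X (f i)) := by
    unfold lin
    rw [Finset.prod_univ_sum, Fintype.piFinset_univ]
  rw [h1, sq_sum, ← Matrix.permanent_transpose, Matrix.permanent]
  have h2 : ∀ f : Fin n → Fin n, sq univ (∏ i, (C (A i (f i)) * X (f i)) : MvPolynomial (Fin n) F) =
      if Function.Bijective f then ∏ i, A i (f i) else 0 := by
    intro f
    rw [Finset.prod_mul_distrib, ← map_prod, sq_C_mul]
    have h3 : (∏ i, X (f i) : MvPolynomial (Fin n) F) = monomial (∑ i, Finsupp.single (f i) 1) 1 := by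
      rw [monomial_sum_one]; rfl
    rw [h3, sq, coeff_monomial]
    have h4 : (∑ i, Finsupp.single (f i) 1 = ex (univ : Finset (Fin n))) ↔ Function.Bijective f := by
      constructor
      · intro h
        rw [← Finite.injective_iff_bijective, Finite.injective_iff_surjective]
        intro j
        have := DFunLike.congr_fun h j
        rw [Finsupp.finsetSum_apply, ex_apply, if_pos (Finset.mem_univ j)] at this
        obtain ⟨i, _, hi⟩ := Finset.exists_ne_zero_of_sum_ne_zero (by rw [this]; exact one_ne_zero)
        rw [Finsupp.single_apply] at hi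
        exact ⟨i, by by_contra hc; rw [if_neg hc] at hi; exact hi rfl⟩
      · intro h
        ext j
        rw [Finsupp.finsetSum_apply, ex_apply, if_pos (Finset.mem_univ j)]
        obtain ⟨i, rfl⟩ := h.2 j
        rw [Finset.sum_eq_single i]
        · simp
        · intro b _ hb
          rw [Finsupp.single_apply, if_neg (fun e => hb (h.1 e))]
        · simp
    by_cases hf : Function.Bijective f
    · rw [if_pos (h4.2 hf), if_pos hf, mul_one]
    · rw [if_neg (fun h => hf (h4.1 h)), if_neg hf, mul_zero]
  simp only [h2]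
  rw [← Finset.sum_filter]
  refine (Finset.sum_bij (fun (σ : Equiv.Perm (Fin n)) _ => (σ : Fin n → Fin n)) ?_ ?_ ?_ ?_).symm
  · intro σ _
    exact Finset.mem_filter.2 ⟨Finset.mem_univ _, σ.bijective⟩
  · intro σ _ τ _ h
    exact DFunLike.coe_injective h
  · intro f hf
    exact ⟨Equiv.ofBijective f (Finset.mem_filter.1 hf).2, Finset.mem_univ _, rfl⟩
  · intro σ _
    rfl

end Pool.Agent.K1H36.Perm
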