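import Pool.Agent.K1H36.Perm.Moments

/-!
# The recursive inequality
-/

namespace Pool.Agent.K1H36.Perm

open MvPolynomial Finset
open scoped BigOperators

attribute [local instance] Classical.propDecidable

set_option linter.unusedSectionVars false

variable {F : Type*} [Field F] [Fintype F] {m : ℕ}

/-- Index set of the characters. -/
abbrev Ix (F : Type*) [Field F] (m : ℕ) : Type _ := Fin (m + 1) × {s : F // s ≠ 0}

theorem card_ne : (Fintype.card {s : F // s ≠ 0} : ℝ) = Fintype.card F - 1 := by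
  rw [Fintype.card_subtype_compl, Fintype.card_subtype_eq, Nat.cast_sub Fintype.card_pos]
  simp

/-- `q` times the number of vanishing minors minus `m + 1`. -/
noncomputable def G (R : Fin (m + 1) → Fin m → F) : ℝ :=
  ∑ a : Fin (m + 1), ((if pm R a = 0 then (Fintype.card F : ℝ) else 0) - 1)

theorem G_eq {χ : AddChar F ℂ} (hχ : ∃ x, χ x ≠ 1) (R : Fin (m + 1) → Fin m → F) :
    ((G R : ℝ) : ℂ) = ∑ s : Ix F m, χ (s.2.1 * pm R s.1) := by
  rw [Fintype.sum_prod_type, G]
  push_cast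
  refine Finset.sum_congr rfl fun a _ => ?_
  have h1 : ∑ s : F, χ (s * pm R a) = if pm R a = 0 then (Fintype.card F : ℂ) else 0 := by
    have h := orth (V := F) hχ (LinearMap.lsmul F F (pm R a))
    rw [Fintype.expect_eq_sum_div_card, div_eq_iff (by
      exact_mod_cast Fintype.card_ne_zero)] at h
    simp only [LinearMap.lsmul_apply, smul_eq_mul] at h
    simp only [mul_comm _ (pm R a)]
    rw [h]
    have : (∀ v : F, pm R a * v = 0) ↔ pm R a = 0 :=
      ⟨fun h => by simpa using h 1, fun h v => by rw [h, zero_mul]⟩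
    simp only [this]
    split_ifs <;> simp
  have h2 : ∑ s : F, χ (s * pm R a) = χ (0 * pm R a) +
      ∑ s : {s : F // s ≠ 0}, χ (s.1 * pm R a) := by
    rw [← Finset.add_sum_erase univ _ (Finset.mem_univ (0 : F))]
    congr 1
    refine (Finset.sum_subtype _ (fun x => ?_) _)
    simp
  rw [zero_mul, AddChar.map_zero_eq_one] at h2
  rw [h1] at h2
  rw [sub_eq_iff_eq_add', ← h2]
  split_ifs <;> simp

theorem G_ge (R : Fin (m + 1) → Fin m → F) : -(m + 1 : ℝ) ≤ G R := by
  have : ∑ _a : Fin (m + 1), (-1 : ℝ) ≤ G R := by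
    refine Finset.sum_le_sum fun a _ => ?_
    have : (0 : ℝ) ≤ (Fintype.card F : ℝ) := by positivity
    split_ifs <;> linarith
  simpa using this

theorem G_all (R : Fin (m + 1) → Fin m → F) (h : ∀ a, pm R a = 0) :
    G R = (m + 1) * ((Fintype.card F : ℝ) - 1) := by
  rw [G]
  simp [h]
  ring

theorem G_pointwise (R : Fin (m + 1) → Fin m → F) :
    (Fintype.card F : ℝ) * ((Fintype.card F : ℝ) - 1) ^ 2 * (m + 1) ^ 3 *
      (if ∀ a, pm R a = 0 then (1 : ℝ) else 0) ≤ G R ^ 3 + (m + 1) * G R ^ 2 := by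
  split_ifs with h
  · rw [G_all R h]
    apply le_of_eq; ring
  · have := G_ge R
    have h2 : G R ^ 3 + (m + 1) * G R ^ 2 = G R ^ 2 * (G R + (m + 1)) := by ring
    rw [mul_zero, h2]
    exact mul_nonneg (sq_nonneg _) (by linarith)

theorem norm_char_le {χ : AddChar F ℂ} (f : (Fin (m + 1) → Fin m → F) → F) :
    ‖𝔼 R, χ (f R)‖ ≤ 1 := by
  rw [Fintype.expect_eq_sum_div_card, norm_div, Complex.norm_natCast, div_le_one (by
    exact_mod_cast Fintype.card_pos)]
  refine (norm_sum_le _ _).trans ?_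
  simp

theorem card_Ix : (Fintype.card (Ix F m) : ℝ) = (m + 1) * ((Fintype.card F : ℝ) - 1) := by
  rw [Fintype.card_prod, Nat.cast_mul, card_ne, Fintype.card_fin]
  push_cast; ring

/-- The number of pairs of indices with the same minor. -/
theorem sum_same : ∑ s : Ix F m, ∑ t : Ix F m, (if s.1 = t.1 then (1 : ℝ) else 0) =
    (m + 1) * ((Fintype.card F : ℝ) - 1) ^ 2 := by
  have h1 : ∀ s : Ix F m, ∑ t : Ix F m, (if s.1 = t.1 then (1 : ℝ) else 0) =
      (Fintype.card F : ℝ) - 1 := by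
    intro s
    rw [Fintype.sum_prod_type]
    rw [Finset.sum_eq_single s.1]
    · simp only [if_true, Finset.sum_const, Finset.card_univ, nsmul_eq_mul, mul_one]
      exact card_ne
    · intro b _ hb
      exact Finset.sum_eq_zero fun t _ => if_neg (fun h => hb h.symm)
    · intro h; exact absurd (Finset.mem_univ _) h
  simp only [h1]
  rw [Finset.sum_const, Finset.card_univ, nsmul_eq_mul, card_Ix]
  ring

theorem second_moment {χ : AddChar F ℂ} (hχ : ∃ x, χ x ≠ 1) (hm : 1 ≤ m) :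
    𝔼 R : Fin (m + 1) → Fin m → F, G R ^ 2 ≤
      (m + 1) ^ 2 * ((Fintype.card F : ℝ) - 1) ^ 2 * W F m (m - 1) +
        (m + 1) * ((Fintype.card F : ℝ) - 1) ^ 2 := by
  have h1 : (((𝔼 R : Fin (m + 1) → Fin m → F, G R ^ 2 : ℝ)) : ℂ) =
      ∑ s : Ix F m, ∑ t : Ix F m, 𝔼 R : Fin (m + 1) → Fin m → F,
        χ (s.2.1 * pm R s.1 + t.2.1 * pm R t.1) := by
    push_cast
    rw [Finset.sum_congr rfl fun s _ => (Finset.expect_sum_comm _ _ _).symm,
      ← Finset.expect_sum_comm]
    refine Finset.expect_congr rfl fun R _ => ?_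
    rw [G_eq hχ, pow_two, Finset.sum_mul_sum]
    simp only [AddChar.map_add_eq_mul]
  have h2 : (𝔼 R : Fin (m + 1) → Fin m → F, G R ^ 2) ≤
      ∑ s : Ix F m, ∑ t : Ix F m, (W F m (m - 1) + if s.1 = t.1 then (1 : ℝ) else 0) := by
    refine (le_abs_self _).trans ?_
    rw [← Real.norm_eq_abs, ← Complex.norm_real, h1]
    refine (norm_sum_le _ _).trans (Finset.sum_le_sum fun s _ => ?_)
    refine (norm_sum_le _ _).trans (Finset.sum_le_sum fun t _ => ?_)
    by_cases hst : s.1 = t.1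
    · rw [if_pos hst]
      have := norm_char_le (χ := χ) (fun R : Fin (m + 1) → Fin m → F =>
        s.2.1 * pm R s.1 + t.2.1 * pm R t.1)
      have h3 := W_nonneg (F := F) (m := m) (m - 1)
      linarith
    · rw [if_neg hst, add_zero, pair_moment hχ hm hst s.2.2 t.2.2, Complex.norm_real,
        Real.norm_of_nonneg (W_nonneg _)]
  refine h2.trans (le_of_eq ?_)
  simp only [Finset.sum_add_distrib, Finset.sum_const, Finset.card_univ, nsmul_eq_mul]
  rw [sum_same, card_Ix]
  ring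

theorem third_moment {χ : AddChar F ℂ} (hχ : ∃ x, χ x ≠ 1) (h2 : (2 : F) ≠ 0) (hm : 2 ≤ m) :
    𝔼 R : Fin (m + 1) → Fin m → F, G R ^ 3 ≤
      (m + 1) ^ 3 * ((Fintype.card F : ℝ) - 1) ^ 3 * (1 / (Fintype.card F : ℝ) * W F m (m - 1) +
        (1 - 1 / (Fintype.card F : ℝ)) * W F m (m - 2)) +
        3 * ((m + 1) ^ 2 * ((Fintype.card F : ℝ) - 1) ^ 3) := by
  set E : ℝ := 1 / (Fintype.card F : ℝ) * W F m (m - 1) +
        (1 - 1 / (Fintype.card F : ℝ)) * W F m (m - 2) with hE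
  have hq : (1 : ℝ) ≤ Fintype.card F := by exact_mod_cast Fintype.card_pos
  have hE0 : 0 ≤ E := by
    have h1 := W_nonneg (F := F) (m := m) (m - 1)
    have h2 := W_nonneg (F := F) (m := m) (m - 2)
    have h3 : 1 / (Fintype.card F : ℝ) ≤ 1 := by rw [div_le_one (by linarith)]; exact hq
    have h4 : 0 ≤ 1 / (Fintype.card F : ℝ) := by positivity
    exact add_nonneg (mul_nonneg h4 h1) (mul_nonneg (by linarith) h2)
  have h1 : (((𝔼 R : Fin (m + 1) → Fin m → F, G R ^ 3 : ℝ)) : ℂ) =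
      ∑ s : Ix F m, ∑ t : Ix F m, ∑ u : Ix F m, 𝔼 R : Fin (m + 1) → Fin m → F,
        χ (s.2.1 * pm R s.1 + t.2.1 * pm R t.1 + u.2.1 * pm R u.1) := by
    push_cast
    rw [Finset.sum_congr rfl fun s _ => Finset.sum_congr rfl fun t _ =>
      (Finset.expect_sum_comm _ _ _).symm,
      Finset.sum_congr rfl fun s _ => (Finset.expect_sum_comm _ _ _).symm,
      ← Finset.expect_sum_comm]
    refine Finset.expect_congr rfl fun R _ => ?_
    rw [G_eq hχ, pow_succ, pow_two, Finset.sum_mul_sum, Finset.sum_mul]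
    refine Finset.sum_congr rfl fun s _ => ?_
    rw [Finset.sum_mul_sum]
    simp only [AddChar.map_add_eq_mul]
  have h3 : (𝔼 R : Fin (m + 1) → Fin m → F, G R ^ 3) ≤
      ∑ s : Ix F m, ∑ t : Ix F m, ∑ u : Ix F m, (E + ((if s.1 = t.1 then (1 : ℝ) else 0) +
        (if s.1 = u.1 then (1 : ℝ) else 0) + (if t.1 = u.1 then (1 : ℝ) else 0))) := by
    refine (le_abs_self _).trans ?_
    rw [← Real.norm_eq_abs, ← Complex.norm_real, h1]
    refine (norm_sum_le _ _).trans (Finset.sum_le_sum fun s _ => ?_)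
    refine (norm_sum_le _ _).trans (Finset.sum_le_sum fun t _ => ?_)
    refine (norm_sum_le _ _).trans (Finset.sum_le_sum fun u _ => ?_)
    have h4 := norm_char_le (χ := χ) (fun R : Fin (m + 1) → Fin m → F =>
        s.2.1 * pm R s.1 + t.2.1 * pm R t.1 + u.2.1 * pm R u.1)
    by_cases hst : s.1 = t.1
    · rw [if_pos hst]
      have h5 : (0 : ℝ) ≤ if s.1 = u.1 then (1 : ℝ) else 0 := by split_ifs <;> norm_num
      have h6 : (0 : ℝ) ≤ if t.1 = u.1 then (1 : ℝ) else 0 := by split_ifs <;> norm_num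
      linarith
    · by_cases hsu : s.1 = u.1
      · rw [if_neg hst, if_pos hsu]
        have h6 : (0 : ℝ) ≤ if t.1 = u.1 then (1 : ℝ) else 0 := by split_ifs <;> norm_num
        linarith
      · by_cases htu : t.1 = u.1
        · rw [if_neg hst, if_neg hsu, if_pos htu]
          linarith
        · rw [if_neg hst, if_neg hsu, if_neg htu]
          have := triple_moment hχ h2 hm hst hsu htu s.2.2 t.2.2 u.2.2
          linarith
  refine h3.trans (le_of_eq ?_)
  have a1 : ∑ s : Ix F m, ∑ t : Ix F m, ∑ _u : Ix F m, (if s.1 = t.1 then (1 : ℝ) else 0) =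
      (m + 1) ^ 2 * ((Fintype.card F : ℝ) - 1) ^ 3 := by
    simp only [Finset.sum_const, Finset.card_univ, nsmul_eq_mul, ← Finset.mul_sum]
    rw [sum_same, card_Ix]; ring
  have a2 : ∑ s : Ix F m, ∑ _t : Ix F m, ∑ u : Ix F m, (if s.1 = u.1 then (1 : ℝ) else 0) =
      (m + 1) ^ 2 * ((Fintype.card F : ℝ) - 1) ^ 3 := by
    simp only [Finset.sum_const, Finset.card_univ, nsmul_eq_mul, ← Finset.mul_sum]
    rw [sum_same, card_Ix]; ring
  have a3 : ∑ _s : Ix F m, ∑ t : Ix F m, ∑ u : Ix F m, (if t.1 = u.1 then (1 : ℝ) else 0) =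
      (m + 1) ^ 2 * ((Fintype.card F : ℝ) - 1) ^ 3 := by
    simp only [Finset.sum_const, Finset.card_univ, nsmul_eq_mul]
    rw [sum_same, card_Ix]; ring
  simp only [Finset.sum_add_distrib]
  rw [a1, a2, a3]
  simp only [Finset.sum_const, Finset.card_univ, nsmul_eq_mul]
  rw [card_Ix]
  ring

/-- **The recursive inequality.** -/
theorem recursion (h2 : (2 : F) ≠ 0) (hm : 2 ≤ m) :
    (Fintype.card F : ℝ) * W F (m + 1) m ≤
      ((Fintype.card F : ℝ) - 1) * (1 / (Fintype.card F : ℝ) * W F m (m - 1) +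
        (1 - 1 / (Fintype.card F : ℝ)) * W F m (m - 2)) + W F m (m - 1) +
        3 * (Fintype.card F : ℝ) / (m + 1) := by
  obtain ⟨χ, hχ⟩ := exists_char F
  have hq : (1 : ℝ) < Fintype.card F := by exact_mod_cast Fintype.one_lt_card
  set q : ℝ := (Fintype.card F : ℝ) with hqdef
  have hn : (0 : ℝ) < m + 1 := by positivity
  have s2 := second_moment hχ (m := m) (by omega)
  have s3 := third_moment hχ h2 hm
  have s1 : q * (q - 1) ^ 2 * (m + 1) ^ 3 * W F (m + 1) m ≤
      (𝔼 R : Fin (m + 1) → Fin m → F, G R ^ 3) +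
        (m + 1) * 𝔼 R : Fin (m + 1) → Fin m → F, G R ^ 2 := by
    rw [← tall_eq, Finset.mul_expect, Finset.mul_expect, ← Finset.expect_add_distrib]
    exact Finset.expect_le_expect fun R _ => G_pointwise R
  set E : ℝ := 1 / q * W F m (m - 1) + (1 - 1 / q) * W F m (m - 2) with hE
  have s4 : q * (q - 1) ^ 2 * (m + 1) ^ 3 * W F (m + 1) m ≤
      (m + 1) ^ 3 * (q - 1) ^ 3 * E + 3 * ((m + 1) ^ 2 * (q - 1) ^ 3) +
        (m + 1) * ((m + 1) ^ 2 * (q - 1) ^ 2 * W F m (m - 1) + (m + 1) * (q - 1) ^ 2) := by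
    have := mul_le_mul_of_nonneg_left s2 hn.le
    linarith
  have hc : 0 < (q - 1) ^ 2 * ((m : ℝ) + 1) ^ 3 := by
    have : 0 < q - 1 := by linarith
    positivity
  have s5 : q * W F (m + 1) m ≤ (q - 1) * E + W F m (m - 1) + (3 * (q - 1) + 1) / (m + 1) := by
    rw [← mul_le_mul_iff_right₀ hc]
    have e1 : (q - 1) ^ 2 * ((m : ℝ) + 1) ^ 3 * ((q - 1) * E + W F m (m - 1) +
        (3 * (q - 1) + 1) / (m + 1)) = (m + 1) ^ 3 * (q - 1) ^ 3 * E +
        3 * ((m + 1) ^ 2 * (q - 1) ^ 3) +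
        (m + 1) * ((m + 1) ^ 2 * (q - 1) ^ 2 * W F m (m - 1) + (m + 1) * (q - 1) ^ 2) := by
      field_simp
      ring
    rw [e1]
    linarith
  refine s5.trans ?_
  gcongr
  linarith

end Pool.Agent.K1H36.Perm
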